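import Mathlib

/-!
# The threshold number is not bounded by any function of the threshold dimension

The complete multipartite graphs `K_{3, ..., 3}` have threshold dimension at most three and unbounded
threshold number.
-/

set_option autoImplicit false

namespace Pool.Agent.Results.MP_105209_co.NotBounded

open Finset

/-- `G` is `k`-threshold: there are `k` distinct reals (the elements of `T`) and ranks `r` such that
two distinct vertices `v, w` are adjacent iff the number of elements of `T` which are at most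
`r v + r w` is odd. -/
def IsKThreshold {V : Type} (G : SimpleGraph V) (k : ℕ) : Prop :=
  ∃ T : Finset ℝ, T.card = k ∧ ∃ r : V → ℝ, ∀ v w, v ≠ w →
    (G.Adj v w ↔ Odd (T.filter (fun θ => θ ≤ r v + r w)).card)

/-- The threshold number `Θ(G)`: the least `k` such that `G` is `k`-threshold. -/
noncomputable def thresholdNumber {V : Type} (G : SimpleGraph V) : ℕ :=
  sInf {k | IsKThreshold G k}

/-- The threshold dimension `t(G)`: the least `k` such that the edge set of `G` is the union of the
edge sets of `k` threshold graphs on the vertex set of `G`. -/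
noncomputable def thresholdDimension {V : Type} (G : SimpleGraph V) : ℕ :=
  sInf {k | ∃ H : Fin k → SimpleGraph V, (∀ i, IsKThreshold (H i) 1) ∧
    ∀ v w, G.Adj v w ↔ ∃ i, (H i).Adj v w}

/-! ### Every finite graph is `k`-threshold for some `k` -/

lemma pair_sum_injective {a b c d : ℕ} (hab : a ≠ b) (hcd : c ≠ d)
    (h : 2 ^ a + 2 ^ b = 2 ^ c + 2 ^ d) : ({a, b} : Finset ℕ) = {c, d} := by
  apply Finset.geomSum_injective (n := 2) le_rfl
  simp only [Finset.sum_pair hab, Finset.sum_pair hcd]
  exact h

lemma exists_threshold {V : Type} [Finite V] (G : SimpleGraph V) : ∃ k, IsKThreshold G k := by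
  classical
  have : Fintype V := Fintype.ofFinite V
  let e := Fintype.equivFin V
  let f : V → ℕ := fun v => (e v : ℕ)
  have hf : Function.Injective f := fun v w h => e.injective (Fin.val_injective h)
  -- the sums of the edges
  let S : Finset ℕ := (univ.filter (fun p : V × V => G.Adj p.1 p.2)).image
    (fun p => 2 ^ f p.1 + 2 ^ f p.2)
  have hS : ∀ v w, v ≠ w → (G.Adj v w ↔ 2 ^ f v + 2 ^ f w ∈ S) := by
    intro v w hvw
    constructor
    · intro h
      exact mem_image.mpr ⟨(v, w), by simpa using h, rfl⟩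
    · intro h
      obtain ⟨⟨a, b⟩, hab, h2⟩ := mem_image.mp h
      simp only [mem_filter, mem_univ, true_and] at hab
      have h3 := pair_sum_injective (fun h => hab.ne (hf h)) (fun h => hvw (hf h)) h2
      have h4 : f a ∈ ({f v, f w} : Finset ℕ) := by rw [← h3]; simp
      have h5 : f b ∈ ({f v, f w} : Finset ℕ) := by rw [← h3]; simp
      rw [mem_insert, mem_singleton] at h4 h5
      rcases h4 with h4 | h4 <;> rcases h5 with h5 | h5
      · exact absurd ((hf h4).trans (hf h5).symm) hab.ne
      · rw [hf h4, hf h5] at hab; exact hab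
      · rw [hf h4, hf h5] at hab; exact hab.symm
      · exact absurd ((hf h4).trans (hf h5).symm) hab.ne
  let T : Finset ℝ := S.image (fun s : ℕ => (s : ℝ)) ∪ S.image (fun s : ℕ => (s : ℝ) + 1 / 2)
  have hinj1 : Function.Injective (fun s : ℕ => (s : ℝ)) := Nat.cast_injective
  have hinj2 : Function.Injective (fun s : ℕ => (s : ℝ) + 1 / 2) := by
    intro a b h
    exact Nat.cast_injective (R := ℝ) (by simpa using h)
  refine ⟨T.card, T, rfl, fun v => (2 : ℝ) ^ f v, fun v w hvw => ?_⟩
  rw [hS v w hvw]
  set x : ℕ := 2 ^ f v + 2 ^ f w with hx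
  have hxr : (2 : ℝ) ^ f v + (2 : ℝ) ^ f w = (x : ℝ) := by rw [hx]; push_cast; ring
  have hfil : (T.filter (fun θ => θ ≤ (2 : ℝ) ^ f v + (2 : ℝ) ^ f w)).card =
      (S.filter (fun s => s ≤ x)).card + (S.filter (fun s => s < x)).card := by
    rw [hxr, filter_union, card_union_of_disjoint]
    · congr 1
      · rw [filter_image, card_image_of_injective _ hinj1]
        congr 1
        apply filter_congr
        intro s _
        exact Nat.cast_le
      · rw [filter_image, card_image_of_injective _ hinj2]
        congr 1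
        apply filter_congr
        intro s _
        constructor
        · intro h
          by_contra hcon
          rw [not_lt] at hcon
          have : (x : ℝ) ≤ s := by exact_mod_cast hcon
          linarith
        · intro h
          have : (s : ℝ) + 1 ≤ x := by exact_mod_cast h
          linarith
    · rw [disjoint_left]
      intro y hy1 hy2
      obtain ⟨s, -, hs⟩ := mem_image.mp (mem_filter.mp hy1).1
      obtain ⟨t, -, ht⟩ := mem_image.mp (mem_filter.mp hy2).1
      have h1 : (s : ℝ) = t + 1 / 2 := by rw [hs, ht]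
      have h2 : ((2 * s : ℕ) : ℝ) = ((2 * t + 1 : ℕ) : ℝ) := by push_cast; linarith
      have h3 : 2 * s = 2 * t + 1 := by exact_mod_cast h2
      omega
  rw [hfil]
  by_cases hmem : x ∈ S
  · have h1 : S.filter (fun s => s ≤ x) = insert x (S.filter (fun s => s < x)) := by
      ext s
      simp only [mem_filter, mem_insert]
      constructor
      · rintro ⟨h1, h2⟩
        rcases h2.lt_or_eq with h | h
        · exact Or.inr ⟨h1, h⟩
        · exact Or.inl h
      · rintro (rfl | ⟨h1, h2⟩)
        · exact ⟨hmem, le_rfl⟩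
        · exact ⟨h1, h2.le⟩
    rw [h1, card_insert_of_notMem (by simp)]
    simp only [hmem, true_iff]
    exact ⟨(S.filter (fun s => s < x)).card, by ring⟩
  · have h1 : S.filter (fun s => s ≤ x) = S.filter (fun s => s < x) := by
      apply filter_congr
      intro s hs
      constructor
      · intro h
        refine lt_of_le_of_ne h ?_
        rintro rfl
        exact hmem hs
      · exact le_of_lt
    rw [h1]
    simp only [hmem, false_iff, Nat.not_odd_iff_even]
    exact ⟨_, rfl⟩

/-! ### The complete multipartite graphs -/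

/-- The complete multipartite graph with `p` parts of size three. -/
def K (p : ℕ) : SimpleGraph (Fin p × Fin 3) where
  Adj v w := v.1 ≠ w.1
  symm := ⟨fun _ _ h => h.symm⟩
  loopless := ⟨fun _ h => h rfl⟩

/-- If `p > (k + 1) ^ 3` then `K p` is not `k`-threshold. -/
lemma not_threshold (p k : ℕ) (hp : (k + 1) ^ 3 < p) : ¬ IsKThreshold (K p) k := by
  classical
  rintro ⟨T, hT, r, hr⟩
  let N : ℝ → ℕ := fun x => (T.filter (fun θ => θ ≤ x)).card
  have hN : ∀ x, N x < k + 1 := fun x => by
    have := card_filter_le T (fun θ => θ ≤ x)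
    simp only [N]
    omega
  have hmono : Monotone N := by
    intro x y hxy
    apply card_le_card
    intro θ hθ
    rw [mem_filter] at hθ ⊢
    exact ⟨hθ.1, hθ.2.trans hxy⟩
  -- two parts with the same pattern
  let g : Fin p → Fin (k + 1) × Fin (k + 1) × Fin (k + 1) := fun i =>
    (⟨N (r (i, 0) + r (i, 1)), hN _⟩, ⟨N (r (i, 0) + r (i, 2)), hN _⟩,
      ⟨N (r (i, 1) + r (i, 2)), hN _⟩)
  obtain ⟨i, j, hij, hgij⟩ : ∃ i j, i ≠ j ∧ g i = g j := by
    apply Fintype.exists_ne_map_eq_of_card_lt
    simp only [Fintype.card_prod, Fintype.card_fin]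
    calc (k + 1) * ((k + 1) * (k + 1)) = (k + 1) ^ 3 := by ring
      _ < p := hp
  simp only [g, Prod.mk.injEq, Fin.mk.injEq] at hgij
  obtain ⟨h01, h02, h12⟩ := hgij
  -- two coordinates cannot increase together
  have key : ∀ s t : Fin 3, s ≠ t → N (r (i, s) + r (i, t)) = N (r (j, s) + r (j, t)) →
      ∀ i' j', (i' = i ∧ j' = j) ∨ (i' = j ∧ j' = i) →
      r (i', s) ≤ r (j', s) → r (i', t) ≤ r (j', t) → False := by
    intro s t hst hN' i' j' hcase h1 h2
    have hij' : i' ≠ j' := by
      rcases hcase with ⟨rfl, rfl⟩ | ⟨rfl, rfl⟩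
      · exact hij
      · exact hij.symm
    have hN'' : N (r (i', s) + r (i', t)) = N (r (j', s) + r (j', t)) := by
      rcases hcase with ⟨rfl, rfl⟩ | ⟨rfl, rfl⟩
      · exact hN'
      · exact hN'.symm
    have h3 : N (r (i', s) + r (j', t)) = N (r (i', s) + r (i', t)) := by
      apply le_antisymm
      · rw [hN'']
        exact hmono (by linarith)
      · exact hmono (by linarith)
    have h4 : Odd (N (r (i', s) + r (j', t))) :=
      (hr (i', s) (j', t) (fun h => hij' (congrArg Prod.fst h))).mp hij'
    have h5 : ¬ Odd (N (r (i', s) + r (i', t))) := by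
      intro h
      have := (hr (i', s) (i', t) (fun h => hst (congrArg Prod.snd h))).mpr h
      exact this rfl
    rw [h3] at h4
    exact h5 h4
  rcases le_total (r (i, 0)) (r (j, 0)) with h0 | h0 <;>
  rcases le_total (r (i, 1)) (r (j, 1)) with h1 | h1 <;>
  rcases le_total (r (i, 2)) (r (j, 2)) with h2 | h2
  · exact key 0 1 (by decide) h01 i j (Or.inl ⟨rfl, rfl⟩) h0 h1
  · exact key 0 1 (by decide) h01 i j (Or.inl ⟨rfl, rfl⟩) h0 h1
  · exact key 0 2 (by decide) h02 i j (Or.inl ⟨rfl, rfl⟩) h0 h2
  · exact key 1 2 (by decide) h12 j i (Or.inr ⟨rfl, rfl⟩) h1 h2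
  · exact key 1 2 (by decide) h12 i j (Or.inl ⟨rfl, rfl⟩) h1 h2
  · exact key 0 2 (by decide) h02 j i (Or.inr ⟨rfl, rfl⟩) h0 h2
  · exact key 0 1 (by decide) h01 j i (Or.inr ⟨rfl, rfl⟩) h0 h1
  · exact key 0 1 (by decide) h01 j i (Or.inr ⟨rfl, rfl⟩) h0 h1

/-- The ranks of the covering threshold graphs. -/
noncomputable def rk (p : ℕ) (c : Fin 3) (v : Fin p × Fin 3) : ℝ :=
  if v.2 = c then 2 * p - (v.1 : ℕ) else (v.1 : ℕ) - 2 * p - 1 / 2

/-- The covering threshold graphs. -/
def H (p : ℕ) (c : Fin 3) : SimpleGraph (Fin p × Fin 3) where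
  Adj v w := v ≠ w ∧ 0 ≤ rk p c v + rk p c w
  symm := ⟨fun _ _ h => ⟨h.1.symm, by rw [add_comm]; exact h.2⟩⟩
  loopless := ⟨fun _ h => h.1 rfl⟩

lemma H_threshold (p : ℕ) (c : Fin 3) : IsKThreshold (H p c) 1 := by
  classical
  refine ⟨{0}, by simp, rk p c, fun v w hvw => ?_⟩
  rw [filter_singleton]
  by_cases h : 0 ≤ rk p c v + rk p c w
  · simp [h, H, hvw]
  · simp [h, H]

lemma cover (p : ℕ) (v w : Fin p × Fin 3) : (K p).Adj v w ↔ ∃ c, (H p c).Adj v w := by
  obtain ⟨i, s⟩ := v
  obtain ⟨j, t⟩ := w
  have hi : ((i : ℕ) : ℝ) + 1 ≤ p := by exact_mod_cast i.2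
  have hj : ((j : ℕ) : ℝ) + 1 ≤ p := by exact_mod_cast j.2
  have hi0 : (0 : ℝ) ≤ (i : ℕ) := Nat.cast_nonneg _
  have hj0 : (0 : ℝ) ≤ (j : ℕ) := Nat.cast_nonneg _
  constructor
  · intro h
    have hij : i ≠ j := h
    have hne : (i, s) ≠ (j, t) := fun h' => hij (congrArg Prod.fst h')
    by_cases hst : s = t
    · refine ⟨s, hne, ?_⟩
      simp only [rk, hst, if_true]
      linarith
    · rcases lt_or_gt_of_ne hij with hlt | hlt
      · refine ⟨s, hne, ?_⟩
        have h1 : ((i : ℕ) : ℝ) + 1 ≤ (j : ℕ) := by exact_mod_cast hlt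
        simp only [rk, if_true, if_neg (Ne.symm hst)]
        linarith
      · refine ⟨t, hne, ?_⟩
        have h1 : ((j : ℕ) : ℝ) + 1 ≤ (i : ℕ) := by exact_mod_cast hlt
        simp only [rk, if_true, if_neg hst]
        linarith
  · rintro ⟨c, hne, hc⟩ hij
    have hij : i = j := hij
    subst hij
    have hst : s ≠ t := fun h => hne (by rw [h])
    by_cases h1 : s = c
    · have h2 : ¬ t = c := fun h => hst (h1.trans h.symm)
      simp only [rk, if_pos h1, if_neg h2] at hc
      linarith
    · by_cases h2 : t = c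
      · simp only [rk, if_neg h1, if_pos h2] at hc
        linarith
      · simp only [rk, if_neg h1, if_neg h2] at hc
        linarith

lemma dimension_le (p : ℕ) : thresholdDimension (K p) ≤ 3 :=
  Nat.sInf_le ⟨H p, H_threshold p, cover p⟩

lemma le_number (p k : ℕ) (hp : (k + 1) ^ 3 < p) : k < thresholdNumber (K p) := by
  have h1 : IsKThreshold (K p) (thresholdNumber (K p)) := Nat.sInf_mem (exists_threshold (K p))
  by_contra hcon
  rw [not_lt] at hcon
  refine not_threshold p (thresholdNumber (K p)) (lt_of_le_of_lt ?_ hp) h1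
  exact Nat.pow_le_pow_left (by omega) 3

/-- There is no function `f` with `Θ(G) ≤ f (t(G))` for every finite graph `G`; indeed the threshold
number is unbounded on the complete multipartite graphs `K p` with `p` parts of size three, whose
threshold dimension is at most three. -/
theorem result : (∀ p, thresholdDimension (K p) ≤ 3) ∧
    (∀ p k, (k + 1) ^ 3 < p → k < thresholdNumber (K p)) ∧
    ¬ ∃ f : ℕ → ℕ, ∀ (V : Type) [Finite V] (G : SimpleGraph V),
      thresholdNumber G ≤ f (thresholdDimension G) := by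
  refine ⟨dimension_le, le_number, ?_⟩
  rintro ⟨f, hf⟩
  set k := f 0 + f 1 + f 2 + f 3 with hk
  have h1 := hf _ (K ((k + 1) ^ 3 + 1))
  have h2 := le_number ((k + 1) ^ 3 + 1) k (by omega)
  have h3 := dimension_le ((k + 1) ^ 3 + 1)
  generalize thresholdDimension (K ((k + 1) ^ 3 + 1)) = d at h1 h3
  interval_cases d <;> omega

end Pool.Agent.Results.MP_105209_co.NotBounded
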